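import Mathlib

namespace Pool.Agent.H.MP_74fee8_an

open Set Filter Topology Polynomial

variable {B : Type} [NormedRing B]

def QN (y : B) : Prop := ∀ ε : ℝ, 0 < ε → ∀ᶠ k in atTop, ‖y ^ k‖ ≤ ε ^ k

lemma QN.mul {y z : B} (h : QN y) (c : Commute y z) : QN (y * z) := fun ε ε0 => by
  filter_upwards [h (ε / (‖z‖ + 1)) (by positivity), eventually_gt_atTop 0] with k hk k0
  rw [c.mul_pow]
  refine (norm_mul_le _ _).trans ((mul_le_mul hk ((norm_pow_le' z k0).trans (pow_le_pow_left₀
    (norm_nonneg _) (le_add_of_nonneg_right zero_le_one) k)) (norm_nonneg _)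
      (by positivity)).trans_eq ?_)
  rw [← mul_pow, div_mul_cancel₀ _ (by positivity)]

lemma QN.zero {y w f : B} (h : QN y) (e : ∀ k, y ^ k * w ^ k * f = f) : f = 0 := by
  have := (tendsto_pow_atTop_nhds_zero_of_lt_one (r := (1 / 2 : ℝ)) (by norm_num)
    (by norm_num)).mul_const ‖f‖
  rw [zero_mul] at this
  refine norm_le_zero_iff.1 (ge_of_tendsto this ?_)
  filter_upwards [h (1 / 2 / (‖w‖ + 1)) (by positivity), eventually_gt_atTop 0] with k hk k0
  refine (congrArg _ (e k).symm).trans_le ((norm_mul_le _ _).trans (mul_le_mul_of_nonneg_right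
    ((norm_mul_le _ _).trans ((mul_le_mul hk ((norm_pow_le' w k0).trans (pow_le_pow_left₀
    (norm_nonneg _) (le_add_of_nonneg_right zero_le_one) k)) (norm_nonneg _)
      (by positivity)).trans_eq ?_)) (norm_nonneg _)))
  rw [← mul_pow, div_mul_cancel₀ _ (by positivity)]

lemma uniq {y e e' : B} (he : e * e = e) (he' : e' * e' = e') (c : Commute e e')
    (c1 : Commute y e) (c2 : Commute y e') (u : IsUnit (y * (1 - e') + e')) (q : QN (y * e)) :
    e * (1 - e') = 0 := by
  obtain ⟨u, hu⟩ := u
  have d : Commute (e * (1 - e')) u := hu ▸ ((c1.symm.mul_right ((Commute.one_right _).sub_right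
    c)).add_right c).mul_left ((((Commute.one_left _).sub_left c2.symm).mul_right
      (Commute.refl _)).add_right ((Commute.one_left _).sub_left (Commute.refl _)))
  have a : y * e * (↑u⁻¹ * (e * (1 - e'))) = e * (1 - e') := by
    have d1 : Commute (y * e) u := hu ▸ (((Commute.refl y).mul_right ((Commute.one_right
      _).sub_right c2)).add_right c2).mul_left ((c1.symm.mul_right ((Commute.one_right _).sub_right
        c)).add_right c)
    have k0 : e' * (1 - e') = 0 := by rw [mul_one_sub, he', sub_self]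
    have k1 : (1 - e') * (e * (1 - e')) = e * (1 - e') := by
      rw [one_sub_mul, ← mul_assoc e', ← c.eq, mul_assoc, k0, mul_zero, sub_zero]
    rw [← mul_assoc, d1.units_inv_right.eq, mul_assoc, Units.inv_mul_eq_iff_eq_mul, hu,
      mul_assoc, ← mul_assoc e, he, add_mul, ← mul_assoc e', ← c.eq, mul_assoc e, k0, mul_zero,
      add_zero, mul_assoc y, k1]
  refine q.zero (w := ↑u⁻¹) fun k => ?_
  induction k with
  | zero => simp
  | succ k ih =>
    rw [pow_succ, pow_succ', mul_assoc, mul_assoc, mul_assoc (↑u⁻¹ : B),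
      ← (d.units_inv_right.pow_right k).eq, ← mul_assoc (↑u⁻¹ : B), ← mul_assoc (y * e), a,
      (d.units_inv_right.pow_right k).eq, ← mul_assoc, ih]

variable [NormedAlgebra ℂ B] [CompleteSpace B]

omit [NormedAlgebra ℂ B] in
lemma QN.unit {y : B} (h : QN y) : IsUnit (1 - y) := by
  have s : Summable (y ^ ·) := Summable.of_norm_bounded_eventually_nat summable_geometric_two
    (h _ (by norm_num))
  exact ⟨⟨_, _, s.one_sub_mul_tsum_pow, s.tsum_pow_mul_one_sub⟩, rfl⟩

lemma QN.of_spec {y : B} (h : spectrum ℂ y ⊆ {0}) : QN y := fun ε ε0 => by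
  have r : spectralRadius ℂ y = 0 := le_zero_iff.1 (iSup₂_le fun k hk => by
    simp [mem_singleton_iff.1 (h hk)])
  have := spectrum.pow_norm_pow_one_div_tendsto_nhds_spectralRadius y
  rw [r] at this
  filter_upwards [this.eventually (gt_mem_nhds (ENNReal.ofReal_pos.2 ε0)),
    eventually_gt_atTop 0] with k hk k0
  have := pow_le_pow_left₀ (by positivity) ((ENNReal.ofReal_lt_ofReal_iff ε0).1 hk).le k
  rwa [one_div, Real.rpow_inv_natCast_pow (norm_nonneg _) k0.ne'] at this

omit [NormedAlgebra ℂ B] in
lemma QN.uadd {u b : B} (hu : IsUnit u) (h : QN b) (c : Commute b u) : IsUnit (u - b) := by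
  obtain ⟨u, rfl⟩ := hu
  simpa [sub_mul] using (h.mul c.units_inv_right).unit.mul u.isUnit

lemma QN.sub {a b : B} (ha : QN a) (hb : QN b) (c : Commute a b) : QN (a - b) := by
  refine .of_spec fun l hl => by_contra fun q => hl ?_
  have := ((ha.uadd ((IsUnit.mk0 l q).map (algebraMap ℂ B))
    (Algebra.commutes l a).symm)).neg
  have := (hb.uadd this ((Algebra.commute_algebraMap_right l b).sub_right c.symm).neg_right).neg
  rw [spectrum.mem_resolventSet_iff]
  convert this using 1
  abel

lemma spec_sub (y : B) (g : ℂ[X]) : spectrum ℂ (aeval y g) ⊆ (eval · g) '' spectrum ℂ y := by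
  cases subsingleton_or_nontrivial B
  · simp
  · exact (spectrum.map_polynomial_aeval_of_nonempty y g (spectrum.nonempty y)).le

theorem riesz {y : B} (hy : (spectrum ℂ y).Finite) : ∃ e : B, e * e = e ∧
    (∀ r, Commute r y → Commute r e) ∧ IsUnit (y * (1 - e) + e) ∧ QN (y * e) := by
  classical
  obtain ⟨g, g0, g1⟩ : ∃ g : ℂ[X], g.eval 0 = 1 ∧ ∀ μ ∈ spectrum ℂ y, μ ≠ 0 → g.eval μ = 0 :=
    ⟨∏ μ ∈ hy.toFinset.erase 0, (1 - C μ⁻¹ * X), by simp [eval_prod], fun μ h h0 => by
      rw [eval_prod]
      exact Finset.prod_eq_zero (i := μ) (by simp [h, h0]) (by simp [h0])⟩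
  have cm : ∀ r, Commute r y → ∀ g : ℂ[X], Commute r (aeval y g) := fun r h g => by
    induction g using Polynomial.induction_on' with
    | add p q a b => rw [map_add]; exact a.add_right b
    | monomial n a =>
      rw [aeval_monomial]
      exact (Algebra.commute_algebraMap_right a r).mul_right (h.pow_right n)
  have qn : ∀ h : ℂ[X], (∀ μ ∈ spectrum ℂ y, h.eval μ = 0) → QN (aeval y h) := fun h hh =>
    .of_spec ((spec_sub y h).trans (by rintro _ ⟨μ, hμ, rfl⟩; exact hh μ hμ))
  set t := aeval y g
  have q1 : QN (t - t * t) := by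
    simpa using qn (g - g * g) fun μ h => by by_cases c : μ = 0 <;> simp [*]
  have q2 : QN (y * t) := by
    have := qn (X * g) fun μ h => by by_cases c : μ = 0 <;> simp [*]
    rwa [map_mul, aeval_X] at this
  have u1 : IsUnit (y * (1 - t) + t) := by
    have : (0 : ℂ) ∉ spectrum ℂ (aeval y (X * (1 - g) + g)) := fun h => by
      obtain ⟨μ, h, e⟩ := spec_sub _ _ h
      by_cases c : μ = 0 <;> simp_all
    simpa using (spectrum.zero_notMem_iff ℂ).1 this
  have ct : ∀ r, Commute r y → Commute r t := fun r h => cm r h g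
  have cn : ∀ r, Commute r t → Commute r (t - t * t) := fun r h => h.sub_right (h.mul_right h)
  obtain ⟨u, hu⟩ := (q1.mul (Commute.ofNat_right _ 4)).unit
  have cu : ∀ r, Commute r t → Commute r (↑u⁻¹ : B) := fun r h => Commute.units_inv_right
    (hu ▸ (Commute.one_right _).sub_right ((cn r h).mul_right (Commute.ofNat_right _ 4)))
  set x := (t - t * t) * -↑u⁻¹
  have qx : QN x := q1.mul (cu _ (cn t (Commute.refl _)).symm).neg_right
  have cx : ∀ r, Commute r t → Commute r x := fun r h => (cn r h).mul_right (cu r h).neg_right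
  have s : Summable fun k => ‖(catalan k : ℂ) • x ^ k‖ := by
    refine Summable.of_norm_bounded_eventually_nat summable_geometric_two ?_
    filter_upwards [qx (1 / 8) (by norm_num)] with k hk
    have : (catalan k : ℝ) ≤ 4 ^ k := by
      exact_mod_cast (catalan_eq_centralBinom_div k).trans_le
        ((Nat.div_le_self _ _).trans (Nat.centralBinom_le_four_pow k))
    rw [norm_norm, norm_smul, Complex.norm_natCast]
    refine (mul_le_mul this hk (norm_nonneg _) (by positivity)).trans_eq ?_
    rw [← mul_pow]; norm_num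
  set w := ∑' k, (catalan k : ℂ) • x ^ k
  have cw : ∀ r, Commute r t → Commute r w := fun r h =>
    Commute.tsum_right _ fun k => ((cx r h).pow_right k).smul_right _
  have ew : w = 1 + x * (w * w) := by
    rw [tsum_mul_tsum_eq_tsum_sum_antidiagonal_of_summable_norm s s,
      ← (summable_norm_sum_mul_antidiagonal_of_summable_norm s s).of_norm.tsum_mul_left]
    refine s.of_norm.tsum_eq_zero_add.trans (congrArg₂ _ (by simp) (tsum_congr fun k => ?_))
    rw [catalan_succ', Nat.cast_sum, Finset.sum_smul, Finset.mul_sum]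
    refine Finset.sum_congr rfl fun p hp => ?_
    rw [smul_mul_smul_comm, ← pow_add, Finset.HasAntidiagonal.mem_antidiagonal.1 hp, mul_smul_comm,
      ← pow_succ', Nat.cast_mul]
  have c0 := cw x (cx t (Commute.refl _)).symm
  have c1 : ∀ r, Commute r t → Commute r (x * w) := fun r h => (cx r h).mul_right (cw r h)
  have c2 : ∀ r, Commute r t → Commute r (x * w * (2 * t - 1)) := fun r h => (c1 r h).mul_right
    (((Commute.ofNat_right _ 2).mul_right h).sub_right (Commute.one_right _))
  have qz : QN (x * w * (2 * t - 1)) := (qx.mul c0).mul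
    (((Commute.ofNat_right _ 2).mul_right (c1 t (Commute.refl _)).symm).sub_right
      (Commute.one_right _))
  have cy := c2 y (ct y (Commute.refl _))
  have ez : x * w - x * w * (x * w) = x := by
    rw [mul_assoc x w, ← mul_assoc w, ← c0.eq, mul_assoc x w, ← mul_sub, sub_eq_iff_eq_add.2 ew,
      mul_one]
  have eu : x * (1 - (t - t * t) * 4) = -(t - t * t) := by
    rw [← hu, mul_assoc, neg_mul, Units.inv_mul, mul_neg, mul_one]
  generalize x * w = z at *
  refine ⟨t - z * (2 * t - 1), ?_, fun r h => (ct r h).sub_right (c2 r (ct r h)), ?_, ?_⟩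
  · have c := (c1 t (Commute.refl _)).eq
    rw [← ez] at eu
    rw [← sub_eq_zero]
    have e1 : (t - z * (2 * t - 1)) * (t - z * (2 * t - 1)) - (t - z * (2 * t - 1)) =
        -(t - t * t) - (z - z * z) * (1 - (t - t * t) * 4) + 2 * (z * t - t * z) * t -
          (z * t - t * z) - 4 * z * (z * t - t * z) * t + 2 * z * (z * t - t * z) := by
      noncomm_ring
    rw [e1, eu, c]; simp
  · convert (qz.mul (cy.symm.neg_right.add_right (Commute.one_right _))).uadd u1 ?_ using 1
    · rw [mul_add, mul_neg, ← cy.eq]; noncomm_ring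
    · have a := cy.symm.mul_left ((Commute.refl y).neg_left.add_left (Commute.one_left _))
      have b := (c2 t (Commute.refl _)).symm.mul_left
        ((ct y (Commute.refl _)).neg_left.add_left (Commute.one_left _))
      exact (a.mul_right ((Commute.one_right _).sub_right b)).add_right b
  · rw [mul_sub y t, cy.eq]
    exact q2.sub (qz.mul cy.symm) ((cy.mul_left (c2 t (Commute.refl _))).mul_right
      ((Commute.refl y).mul_left (ct y (Commute.refl _)).symm))

end Pool.Agent.H.MP_74fee8_an
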