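import Mathlib

namespace Pool.Agent.H.MP_74fee8_an

open Set Filter Topology Finset

variable {R : Type} [AddCommGroup R] [Module ℂ R] {p q : ℕ → Seminorm ℂ R}

structure Fs (p : ℕ → Seminorm ℂ R) : Prop where
  mono : Monotone p
  sep : ∀ x, (∀ m, p m x = 0) → x = 0
  cpl : ∀ u : ℕ → R, (∀ m, ∀ ε > 0, ∃ N, ∀ i ≥ N, ∀ j ≥ N, p m (u i - u j) < ε) →
    ∃ f, ∀ m, Tendsto (fun n => p m (u n - f)) atTop (𝓝 0)

lemma tri (P : Seminorm ℂ R) (a b c : R) : P (a - c) ≤ P (a - b) + P (b - c) := by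
  simpa using map_add_le_add P (a - b) (b - c)

lemma sum_le (P : Seminorm ℂ R) (x : ℕ → R) (n : ℕ) :
    P (∑ i ∈ range n, x i) ≤ ∑ i ∈ range n, P (x i) :=
  le_sum_of_subadditive P (map_zero P).le (map_add_le_add P) _ _

lemma Fs.sum (hp : Fs p) {x : ℕ → R} (h : ∀ n, p n (x n) ≤ (1 / 2) ^ n) :
    ∃ z, ∀ m, Tendsto (fun n => p m (∑ i ∈ range n, x i - z)) atTop (𝓝 0) := by
  refine hp.cpl _ fun m => ?_
  let _ := (p m).toAddGroupSeminorm.toSeminormedAddCommGroup
  have s : Summable fun n => p m (x n) := Summable.of_norm_bounded_eventually_nat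
    summable_geometric_two ((eventually_ge_atTop m).mono fun n hn => by
      rw [Real.norm_of_nonneg (apply_nonneg _ _)]; exact (hp.mono hn _).trans (h n))
  have := Metric.cauchySeq_iff.1 (cauchySeq_range_of_norm_bounded (f := x)
    s.hasSum.tendsto_sum_nat.cauchySeq fun i => le_rfl)
  simp only [dist_eq_norm] at this
  exact this

lemma lim_le {P : Seminorm ℂ R} {u : ℕ → R} {z : R} {c : ℝ}
    (h : Tendsto (fun n => P (u n - z)) atTop (𝓝 0)) (hc : ∀ n, P (u n) ≤ c) : P z ≤ c := by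
  refine ge_of_tendsto' (by simpa using h.const_add c) fun n => ?_
  have := tri P z (u n) 0
  rw [sub_zero, sub_zero, map_sub_rev P z] at this
  linarith [hc n]

lemma baire (hq : Fs q) (P : Seminorm ℂ R) {ε : ℝ} (ε0 : 0 < ε) : ∃ k, ∃ δ > 0, ∀ a, q k a < δ →
    ∀ j, ∀ η > 0, ∃ b, P b ≤ ε ∧ q j (a - b) < η := by
  let _ := (SeminormFamily.moduleFilterBasis q).topology
  have w : WithSeminorms q := ⟨rfl⟩
  have := w.topologicalAddGroup
  have := w.continuousSMul
  let _ := IsTopologicalAddGroup.rightUniformSpace R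
  have : IsUniformAddGroup R := isUniformAddGroup_of_addCommGroup
  have := w.firstCountableTopology
  have : (uniformity R).IsCountablyGenerated := IsUniformAddGroup.uniformity_countably_generated
  have : CompleteSpace R := UniformSpace.complete_of_cauchySeq_tendsto fun u hu => by
    obtain ⟨f, hf⟩ := hq.cpl u fun m ε ε0 => by
      have := (w.tendsto_nhds _ _).1 ((IsUniformAddGroup.cauchy_iff_tendsto _).1 hu).2 m ε ε0
      rw [prod_map_map_eq, eventually_map, prod_atTop_atTop_eq, eventually_atTop] at this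
      obtain ⟨N, hN⟩ := this
      exact ⟨max N.1 N.2, fun i hi j hj => by
        simpa using hN (i, j) ⟨le_of_max_le_left hi, le_of_max_le_right hj⟩⟩
    exact ⟨f, (w.tendsto_nhds _ _).2 fun m ε ε0 => (hf m).eventually (gt_mem_nhds ε0)⟩
  obtain ⟨n, x, hx⟩ := nonempty_interior_of_iUnion_of_closed
    (f := fun n : ℕ => closure {b | P b ≤ n + 1}) (fun _ => isClosed_closure)
    (eq_univ_of_forall fun b => mem_iUnion.2 ⟨⌈P b⌉₊, subset_closure (show P b ≤ _ from
      (Nat.le_ceil _).trans (le_add_of_nonneg_right zero_le_one))⟩)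
  obtain ⟨s, r, r0, hr⟩ := (w.mem_nhds_iff _ _).1 (mem_interior_iff_mem_nhds.1 hx)
  obtain ⟨c, c0, hc⟩ : ∃ c : ℝ, 0 < c ∧ c * (n + 1 + (n + 1)) = ε :=
    ⟨ε / (n + 1 + (n + 1)), by positivity, by field_simp⟩
  refine ⟨s.sup id, c * r, by positivity, fun a ha j η η0 => ?_⟩
  have c1 : (c : ℂ) ≠ 0 := by exact_mod_cast c0.ne'
  have h1 : x + (c : ℂ)⁻¹ • a ∈ closure {b | P b ≤ n + 1} := hr (by
    rw [Seminorm.mem_ball, add_sub_cancel_left]
    refine Seminorm.finset_sup_apply_lt r0 fun i hi => (hq.mono (le_sup (f := id) hi) _).trans_lt ?_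
    rwa [map_smul_eq_mul, norm_inv, Complex.norm_real, Real.norm_of_nonneg c0.le,
      inv_mul_lt_iff₀ c0])
  have h2 := map_mem_closure₂ (f := fun u v : R => (c : ℂ) • (u - v)) (u := {b | P b ≤ ε})
    (by fun_prop) h1 (interior_subset hx) fun u hu v hv => by
      rw [mem_ofPred_eq, map_smul_eq_mul, Complex.norm_real, Real.norm_of_nonneg c0.le, ← hc]
      exact mul_le_mul_of_nonneg_left ((map_sub_le_add P u v).trans (add_le_add hu hv)) c0.le
  simp only [add_sub_cancel_left, smul_inv_smul₀ c1] at h2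
  obtain ⟨b, h3, h4⟩ := mem_closure_iff_nhds.1 h2 _ ((w.mem_nhds_iff _ _).2 ⟨{j}, η, η0, le_rfl⟩)
  exact ⟨b, h4, by simpa [map_sub_rev] using h3⟩

def Sp (p q : ℕ → Seminorm ℂ R) : Submodule ℂ R where
  carrier := {s | ∀ m, ∀ ε > 0, ∃ a, q m a < ε ∧ p m (a - s) < ε}
  zero_mem' m ε ε0 := ⟨0, by simpa using ε0⟩
  add_mem' {s t} hs ht m ε ε0 := by
    obtain ⟨a, a1, a2⟩ := hs m _ (half_pos ε0)
    obtain ⟨b, b1, b2⟩ := ht m _ (half_pos ε0)
    refine ⟨a + b, by linarith [map_add_le_add (q m) a b], ?_⟩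
    rw [add_sub_add_comm]
    linarith [map_add_le_add (p m) (a - s) (b - t)]
  smul_mem' c s hs m ε ε0 := by
    obtain ⟨a, a1, a2⟩ := hs m (ε / (‖c‖ + 1)) (by positivity)
    rw [lt_div_iff₀ (by positivity)] at a1 a2
    refine ⟨c • a, ?_, ?_⟩
    · rw [map_smul_eq_mul]; nlinarith [apply_nonneg (q m) a]
    · rw [← smul_sub, map_smul_eq_mul]; nlinarith [apply_nonneg (p m) (a - s)]

lemma star0 (hp : Fs p) (hq : Fs q) (m : ℕ) : ∃ k, ∃ δ > 0, ∀ a, q k a < δ →
    ∃ s ∈ Sp p q, p m (a - s) ≤ 2 := by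
  choose k δ δ0 h using fun j : ℕ => baire hq (p (m + j)) (ε := (1 / 2) ^ j) (by positivity)
  have : ∀ j a, ∃ b, q (k j) a < δ j → p (m + j) b ≤ (1 / 2) ^ j ∧
      q (k (j + 1) + j) (a - b) < min (δ (j + 1)) ((1 / 2) ^ j) := fun j a => by
    by_cases c : q (k j) a < δ j
    · exact (h j a c _ _ (lt_min (δ0 _) (by positivity))).imp fun b hb _ => hb
    · exact ⟨0, fun d => absurd d c⟩
  choose g hg using this
  refine ⟨k 0, δ 0, δ0 0, fun a ha => ?_⟩
  let A : ℕ → R := fun n => Nat.rec a (fun j y => y - g j y) n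
  have a1 : ∀ j, q (k j) (A j) < δ j := fun j => by
    induction j with
    | zero => exact ha
    | succ j ih => exact (hq.mono le_self_add _).trans_lt ((hg j _ ih).2.trans_le (min_le_left _ _))
  have a2 : ∀ n, ∑ i ∈ range n, g i (A i) = a - A n := fun n => by
    induction n with
    | zero => simp [A]
    | succ n ih => rw [sum_range_succ, ih, show A (n + 1) = A n - g n (A n) from rfl]; abel
  obtain ⟨z, hz⟩ := hp.sum (x := fun i => g i (A i)) fun n =>
    (hp.mono le_add_self _).trans (hg n _ (a1 n)).1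
  refine ⟨a - z, fun l ε ε0 => ?_, ?_⟩
  · obtain ⟨n, h1, h2, h3⟩ := ((((tendsto_add_atTop_iff_nat 1).2 (hz l)).eventually
      (gt_mem_nhds ε0)).and ((eventually_ge_atTop l).and ((tendsto_pow_atTop_nhds_zero_of_lt_one
        (r := (1 / 2 : ℝ)) (by norm_num) (by norm_num)).eventually (gt_mem_nhds ε0)))).exists
    refine ⟨A (n + 1), (hq.mono (h2.trans le_add_self) _).trans_lt
      (((hg n _ (a1 n)).2.trans_le (min_le_right _ _)).trans h3), ?_⟩
    rw [a2, sub_right_comm, map_sub_rev] at h1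
    exact h1
  · rw [sub_sub_cancel]
    exact lim_le (hz m) fun n => (sum_le _ _ _).trans ((sum_le_sum fun i _ =>
      (hp.mono (le_self_add : m ≤ m + i) (g i (A i))).trans (hg i _ (a1 i)).1).trans
        (sum_geometric_two_le n))

lemma star1 (hp : Fs p) (hq : Fs q) (m : ℕ) : ∃ k, ∃ C ≥ 0, ∀ a, ∀ η > 0,
    ∃ s ∈ Sp p q, p m (a - s) ≤ C * (q k a + η) := by
  obtain ⟨k, δ, δ0, h⟩ := star0 hp hq m
  refine ⟨k, 2 / δ, by positivity, fun a η η0 => ?_⟩
  have t0 : 0 < (q k a + η) / δ := by have := apply_nonneg (q k) a; positivity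
  have t1 : (((q k a + η) / δ : ℝ) : ℂ) ≠ 0 := by exact_mod_cast t0.ne'
  obtain ⟨s, h1, h2⟩ := h ((((q k a + η) / δ : ℝ) : ℂ)⁻¹ • a) (by
    rw [map_smul_eq_mul, norm_inv, Complex.norm_real, Real.norm_of_nonneg t0.le,
      inv_mul_lt_iff₀ t0, div_mul_cancel₀ _ δ0.ne']
    linarith)
  refine ⟨_, Submodule.smul_mem _ (((q k a + η) / δ : ℝ) : ℂ) h1, ?_⟩
  have e : ∀ t : ℂ, t ≠ 0 → a - t • s = t • (t⁻¹ • a - s) := fun t t1 => by
    rw [smul_sub, smul_inv_smul₀ t1]
  rw [e _ t1, map_smul_eq_mul, Complex.norm_real, Real.norm_of_nonneg t0.le]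
  exact (mul_le_mul_of_nonneg_left h2 t0.le).trans_eq (by ring)

lemma quo (P : Seminorm ℂ R) (W : Submodule ℂ R) : ∃ ν : Seminorm ℂ R, (∀ y, ν y ≤ P y) ∧
    (∀ w ∈ W, ν w = 0) ∧ ∀ y ε, ν y < ε → ∃ w ∈ W, P (y - w) < ε := by
  let _ := P.toAddGroupSeminorm.toSeminormedAddCommGroup
  let _ : NormedSpace ℂ R := ⟨fun c x => (map_smul_eq_mul P c x).le⟩
  refine ⟨(normSeminorm ℂ (R ⧸ W)).comp W.mkQ, fun y => Submodule.Quotient.norm_mk_le W y,
    fun w hw => by simp [(Submodule.Quotient.mk_eq_zero W).2 hw], fun y ε h => ?_⟩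
  obtain ⟨m, h1, h2⟩ := Submodule.Quotient.norm_mk_lt (W.mkQ y) (sub_pos.2 h)
  exact ⟨y - m, (Submodule.Quotient.eq W).1 h1.symm, by
    rw [sub_sub_cancel]; exact h2.trans_eq (add_sub_cancel _ _)⟩

def Bd (p : ℕ → Seminorm ℂ R) (T : R →ₗ[ℂ] R) : Prop := ∀ j, ∃ C ≥ 0, ∀ x, p j (T x) ≤ C * p j x

theorem stab (hp : Fs p) (hq : Fs q) (m : ℕ) (M : ℕ → R →ₗ[ℂ] R) (N : ℕ → ℕ → R →ₗ[ℂ] R)
    (e : ∀ i n, i ≤ n → ∀ x, M i (N i n x) = M n x) (b1 : ∀ n, Bd p (M n)) (b2 : ∀ n, Bd q (M n))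
    (b3 : ∀ i n, Bd q (N i n)) :
    ∃ n, ∀ s ∈ Sp p q, ∀ ε > 0, ∃ s' ∈ Sp p q, p m (M n s - M (n + 1) s') < ε := by
  by_contra! H
  choose ν n1 n2 n3 using fun n => quo (p m) ((Sp p q).map (M (n + 1)))
  obtain ⟨k, C, C0, hC⟩ := star1 hp hq m
  choose D D0 hD using fun n => b1 n m
  have ct : ∀ n y, ν n (M (n + 1) y) ≤ D (n + 1) * (C * q k y) := fun n y =>
    ge_of_tendsto (f := fun η => D (n + 1) * (C * (q k y + η))) (x := 𝓝[>] 0)
      (tendsto_nhdsWithin_of_tendsto_nhds (Continuous.tendsto' (by fun_prop) _ _ (by simp)))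
      (eventually_mem_nhdsWithin.mono fun η hη => by
        obtain ⟨s, h1, h2⟩ := hC y η hη
        have := map_add_le_add (ν n) (M (n + 1) (y - s)) (M (n + 1) s)
        rw [n2 n _ ⟨s, h1, rfl⟩, add_zero, ← map_add, sub_add_cancel] at this
        exact this.trans ((n1 _ _).trans ((hD _ _).trans (mul_le_mul_of_nonneg_left h2 (D0 _)))))
  have st : ∀ n (T : ℝ), ∃ x, (∀ i ≤ n, (D i * C + 1) * q (n + k) (N i n x) ≤ (1 / 2) ^ n) ∧
      T ≤ ν n (M n x) := fun n T => by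
    obtain ⟨s, hs, ε, ε0, h⟩ := H n
    have β : ε ≤ ν n (M n s) := le_of_not_gt fun l => by
      obtain ⟨_, ⟨s', h1, rfl⟩, h2⟩ := n3 n _ _ l
      exact h2.not_ge (h s' h1)
    choose E E0 hE using fun i => b3 i n (n + k)
    obtain ⟨t, t0, ht⟩ : ∃ t > 0, T ≤ t * (ε / 2) :=
      ⟨(|T| + 1) / (ε / 2), by positivity, by
        rw [div_mul_cancel₀ _ (by positivity)]; linarith [le_abs_self T]⟩
    have z : ∀ (c : ℝ) {d : ℝ}, 0 < d → ∀ᶠ η in 𝓝[>] 0, c * η < d := fun c d d0 =>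
      (tendsto_nhdsWithin_of_tendsto_nhds (Continuous.tendsto' (f := fun η => c * η) (by fun_prop)
        0 0 (by simp))).eventually (gt_mem_nhds d0)
    obtain ⟨η, η1, η2, η0⟩ := (((eventually_all_finite (finite_le_nat n)).2 fun i _ =>
      z ((D i * C + 1) * (E i * t)) (pow_pos one_half_pos n)).and ((z (D n) (half_pos ε0)).and
        eventually_mem_nhdsWithin)).exists
    obtain ⟨a, a1, a2⟩ := hs (n + k + m) η η0
    refine ⟨(t : ℂ) • a, fun i hi => le_trans ?_ (η1 i hi).le, ht.trans ?_⟩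
    · rw [mul_assoc, mul_assoc]
      refine mul_le_mul_of_nonneg_left ((hE _ _).trans (mul_le_mul_of_nonneg_left ?_ (E0 i)))
        (by have := D0 i; positivity)
      rw [map_smul_eq_mul, Complex.norm_real, Real.norm_of_nonneg t0.le]
      exact mul_le_mul_of_nonneg_left ((hq.mono le_self_add _).trans a1.le) t0.le
    · rw [map_smul, map_smul_eq_mul, Complex.norm_real, Real.norm_of_nonneg t0.le]
      refine mul_le_mul_of_nonneg_left ?_ t0.le
      have := map_sub_le_add (ν n) (M n a) (M n (a - s))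
      rw [← map_sub, sub_sub_cancel] at this
      linarith [n1 n (M n (a - s)), hD n (a - s), mul_le_mul_of_nonneg_left
        ((hp.mono le_add_self _).trans a2.le) (D0 n)]
  choose g g1 g2 using st
  let Y : ℕ → R := fun n => Nat.rec 0 (fun j y => y + M j (g j (j + p m y))) n
  let x : ℕ → R := fun n => g n (n + p m (Y n))
  have eY : ∀ n, ∑ i ∈ range n, M i (x i) = Y n := fun n => by
    induction n with
    | zero => rfl
    | succ n ih => rw [sum_range_succ, ih]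
  have bx : ∀ i j, (D i * C + 1) * q (j + k) (N i (i + j) (x (i + j))) ≤ (1 / 2) ^ j := fun i j =>
    (mul_le_mul_of_nonneg_left (hq.mono (by omega) _) (by have := D0 i; positivity)).trans
      ((g1 (i + j) _ i le_self_add).trans (pow_le_pow_of_le_one (by norm_num) (by norm_num)
        le_add_self))
  have : ∀ i, ∃ z, ∀ l, Tendsto (fun n => q l (∑ j ∈ range n, N i (i + j) (x (i + j)) - z))
      atTop (𝓝 0) := fun i => hq.sum fun j => (hq.mono le_self_add _).trans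
    ((le_mul_of_one_le_left (apply_nonneg _ _) (by have := D0 i; nlinarith)).trans (bx i j))
  choose z hz using this
  have lm : ∀ i l, Tendsto (fun n => q l (Y (i + n) - (Y i + M i (z i)))) atTop (𝓝 0) := by
    intro i l
    obtain ⟨E, -, hE⟩ := b2 i l
    refine squeeze_zero (fun _ => apply_nonneg _ _) (fun n => ?_)
      (by simpa using (hz i l).const_mul E)
    refine le_trans (le_of_eq ?_) (hE _)
    rw [← eY, sum_range_add, eY, add_sub_add_left_eq_sub, map_sub (M i), map_sum (M i)]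
    simp only [e _ _ le_self_add]
  have ez : ∀ i, Y 0 + M 0 (z 0) = Y i + M i (z i) := fun i => sub_eq_zero.1 (hq.sep _ fun l => by
    have a := (lm 0 l).comp (tendsto_add_atTop_nat i)
    refine le_antisymm (ge_of_tendsto' (by simpa using a.add (lm i l)) fun n => ?_)
      (apply_nonneg _ _)
    refine (tri _ _ (Y (i + n)) _).trans_eq ?_
    simp [map_sub_rev, add_comm])
  obtain ⟨n, hn⟩ := exists_nat_gt (p m (Y 0 + M 0 (z 0)) + 2)
  have a1 : (D (n + 1) * C + 1) * q k (z (n + 1)) ≤ 2 := by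
    have d : 0 < D (n + 1) * C + 1 := by have := D0 (n + 1); positivity
    rw [← le_div_iff₀' d]
    refine lim_le (hz _ k) fun J => (sum_le _ _ _).trans ?_
    rw [le_div_iff₀' d, mul_sum]
    exact (sum_le_sum fun j _ => (mul_le_mul_of_nonneg_left
      (hq.mono (le_add_self : k ≤ j + k) (N (n + 1) (n + 1 + j) (x (n + 1 + j)))) d.le).trans
        (bx _ j)).trans (sum_geometric_two_le J)
  have a2 : M n (x n) = Y 0 + M 0 (z 0) - Y n - M (n + 1) (z (n + 1)) := by
    rw [ez (n + 1), show Y (n + 1) = Y n + M n (x n) from rfl]; abel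
  have a3 := g2 n (n + p m (Y n))
  have a4 := map_sub_le_add (ν n) (Y 0 + M 0 (z 0) - Y n) (M (n + 1) (z (n + 1)))
  rw [← a2] at a4
  linarith [map_sub_le_add (ν n) (Y 0 + M 0 (z 0)) (Y n), n1 n (Y n), n1 n (Y 0 + M 0 (z 0)),
    ct n (z (n + 1)), apply_nonneg (q k) (z (n + 1))]

end Pool.Agent.H.MP_74fee8_an
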