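import Pool.Agent.H.MP_74fee8_an.A
import Pool.Agent.H.MP_74fee8_an.B

namespace Pool.Agent.H.MP_74fee8_an

open Set Filter Topology Finset Polynomial

variable {R : Type} [Ring R] [Algebra ℂ R] {p q : ℕ → Seminorm ℂ R}

structure Fa (p : ℕ → Seminorm ℂ R) : Prop extends Fs p where
  mul : ∀ m x y, p m (x * y) ≤ p m x * p m y

lemma Fa.bl (hp : Fa p) (a : R) : Bd p (LinearMap.mulLeft ℂ a) := fun j =>
  ⟨p j a, apply_nonneg _ _, fun x => hp.mul j a x⟩

lemma Fa.br (hp : Fa p) (a : R) : Bd p (LinearMap.mulRight ℂ a) := fun j =>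
  ⟨p j a, apply_nonneg _ _, fun x => (hp.mul j x a).trans_eq (mul_comm _ _)⟩

lemma Bd.sp {T : R →ₗ[ℂ] R} (h1 : Bd p T) (h2 : Bd q T) {s : R} (hs : s ∈ Sp p q) :
    T s ∈ Sp p q := fun m ε ε0 => by
  obtain ⟨C, C0, hC⟩ := h1 m
  obtain ⟨D, D0, hD⟩ := h2 m
  obtain ⟨a, a1, a2⟩ := hs m (ε / (C + D + 1)) (by positivity)
  rw [lt_div_iff₀ (by positivity)] at a1 a2
  refine ⟨T a, ?_, ?_⟩
  · nlinarith [hD a, apply_nonneg (q m) a]
  · rw [← map_sub]; nlinarith [hC (a - s), apply_nonneg (p m) (a - s)]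

lemma fin_aux (hp : Fa p) (hq : Fa q) {s : R} (hs : s ∈ Sp p q) (m : ℕ) (op : R → R →ₗ[ℂ] R)
    (h1 : ∀ a, Bd p (op a)) (h2 : ∀ a, Bd q (op a))
    (h3 : ∀ a b x, Commute a b → op a (op b x) = op (a * b) x)
    (h4 : ∀ a b, Commute a b → op a b = a * b) (l : ℕ → ℂ) (li : l.Injective)
    (l0 : ∀ n, l n ≠ 0) : ∃ n r, p m (1 - op (algebraMap ℂ R (l n) - s) r) < 1 := by
  have cm : ∀ f g : ℂ[X], Commute (aeval s f) (aeval s g) := fun f g =>
    (Commute.all f g).map _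
  obtain ⟨n, hn⟩ := stab hp.toFs hq.toFs m (fun n => op (aeval s (∏ j ∈ range n, (C (l j) - X))))
    (fun i n => op (aeval s (∏ j ∈ Ico i n, (C (l j) - X))))
    (fun i n h x => by rw [h3 _ _ _ (cm _ _), ← map_mul, prod_range_mul_prod_Ico _ h])
    (fun _ => h1 _) (fun _ => h2 _) (fun _ _ => h2 _)
  set c : ℂ[X] := ∏ j ∈ range n, (C (l j) - X) with hc
  have k0 : (c * X).eval (l n) ≠ 0 := by
    simp only [hc, eval_mul, eval_X, eval_prod, eval_sub, eval_C]
    exact mul_ne_zero (prod_ne_zero_iff.2 fun j hj =>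
      sub_ne_zero.2 (li.ne (mem_range.1 hj).ne)) (l0 n)
  obtain ⟨g, hg⟩ := X_sub_C_dvd_sub_C_eval (p := c * X) (a := l n)
  generalize (c * X).eval (l n) = κ at k0 hg
  obtain ⟨s', -, h⟩ := hn s hs ‖κ‖ (norm_pos_iff.2 k0)
  have e0 : algebraMap ℂ R (l n) - s = aeval s (C (l n) - X) := by simp
  refine ⟨n, κ⁻¹ • (aeval s g + op (aeval s c) s'), ?_⟩
  have e1 : op (aeval s c) s = κ • 1 - op (aeval s (C (l n) - X)) (aeval s g) := by
    rw [h4 _ _ (cm _ _), ← map_mul, show s = aeval s (X : ℂ[X]) by simp, h4 _ _ (by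
      simpa using cm c X), aeval_X, ← Algebra.algebraMap_eq_smul_one, ← aeval_C s, ← map_sub,
      show C κ - (C (l n) - X) * g = c * X by linear_combination -hg]
    simp
  rw [prod_range_succ, mul_comm, map_mul, ← h3 _ _ _ (cm _ _), ← hc, e1, sub_sub, ← map_add] at h
  rw [e0, map_smul, ← inv_smul_smul₀ k0 (1 : R), ← smul_sub, map_smul_eq_mul, norm_inv,
    inv_mul_lt_iff₀ (norm_pos_iff.2 k0), mul_one]
  exact h

variable {L : ℕ → Type} [∀ m, NormedRing (L m)] [∀ m, NormedAlgebra ℂ (L m)]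
  [∀ m, CompleteSpace (L m)] {π : ∀ m, R →ₐ[ℂ] L m} {τ : ∀ m, L (m + 1) →+* L m}

structure Tw (p : ℕ → Seminorm ℂ R) (π : ∀ m, R →ₐ[ℂ] L m) (τ : ∀ m, L (m + 1) →+* L m) :
    Prop extends Fa p where
  nm : ∀ m x, ‖π m x‖ = p m x
  dn : ∀ m, DenseRange (π m)
  cp : ∀ m x, τ m (π (m + 1) x) = π m x
  le : ∀ m y, ‖τ m y‖ ≤ ‖y‖

namespace Tw

omit [∀ m, CompleteSpace (L m)] in
lemma eq (h : Tw p π τ) {m : ℕ} {a b : R} : π m a = π m b ↔ p m (a - b) = 0 := by
  rw [← h.nm, map_sub, norm_sub_eq_zero_iff]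

omit [∀ m, CompleteSpace (L m)] in
lemma ext (h : Tw p π τ) {a b : R} (e : ∀ m, π m a = π m b) : a = b :=
  sub_eq_zero.1 (h.sep _ fun m => h.eq.1 (e m))

omit [∀ m, CompleteSpace (L m)] in
lemma am (h : Tw p π τ) (y : ∀ m, L m) (hy : ∀ m, τ m (y (m + 1)) = y m) :
    ∃ r, ∀ m, π m r = y m := by
  have dw : ∀ r j m, j ≤ m → ‖π j r - y j‖ ≤ ‖π m r - y m‖ := fun r j m e => by
    induction m, e using Nat.le_induction with
    | base => rfl
    | succ m _ ih => rw [← h.cp m, ← hy m, ← map_sub] at ih; exact ih.trans (h.le _ _)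
  choose r hr using fun m => (h.dn m).exists_dist_lt (y m) (pow_pos one_half_pos m)
  have t : ∀ j, Tendsto (fun m => π j (r m)) atTop (𝓝 (y j)) := fun j =>
    tendsto_iff_norm_sub_tendsto_zero.2 (squeeze_zero' (.of_forall fun _ => norm_nonneg _)
      ((eventually_ge_atTop j).mono fun m e => (dw _ _ _ e).trans (by
        rw [← dist_eq_norm']; exact (hr m).le))
      (tendsto_pow_atTop_nhds_zero_of_lt_one (by norm_num) (by norm_num)))
  obtain ⟨f, hf⟩ := h.cpl r fun m => by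
    have := Metric.cauchySeq_iff.1 (t m).cauchySeq
    simpa only [dist_eq_norm, ← map_sub, h.nm] using this
  exact ⟨f, fun m => tendsto_nhds_unique (tendsto_iff_norm_sub_tendsto_zero.2
    (by simpa only [← map_sub, h.nm] using hf m)) (t m)⟩

omit [∀ m, CompleteSpace (L m)] in
lemma unit (h : Tw p π τ) {x : R} (u : ∀ m, IsUnit (π m x)) : IsUnit x := by
  obtain ⟨r, hr⟩ := h.am (fun m => ↑(u m).unit⁻¹) fun m => by
    refine (left_inv_eq_right_inv (u m).val_inv_mul ?_).symm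
    rw [← h.cp m, ← map_mul, (u _).mul_val_inv, map_one]
  exact ⟨⟨x, r, h.ext fun m => by rw [map_mul, hr, (u m).mul_val_inv, map_one],
    h.ext fun m => by rw [map_mul, hr, (u m).val_inv_mul, map_one]⟩, rfl⟩

lemma fin (h : Tw p π τ) (hq : Fa q) {s : R} (hs : s ∈ Sp p q) (m : ℕ) :
    (spectrum ℂ (π m s)).Finite := by
  have k : ∀ op : R → R →ₗ[ℂ] R, (∀ a, Bd p (op a)) → (∀ a, Bd q (op a)) →
      (∀ a b x, Commute a b → op a (op b x) = op (a * b) x) →
      (∀ a b, Commute a b → op a b = a * b) →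
      {l | l ≠ 0 ∧ ∀ r, ¬ IsUnit (π m (op (algebraMap ℂ R l - s) r))}.Finite :=
    fun op h1 h2 h3 h4 => by_contra fun i => by
      obtain ⟨n, r, e⟩ := fin_aux h.toFa hq hs m op h1 h2 h3 h4
        (fun n => Set.Infinite.natEmbedding _ i n)
        (Subtype.val_injective.comp (Set.Infinite.natEmbedding _ i).injective)
        fun n => (Set.Infinite.natEmbedding _ i n).2.1
      rw [← h.nm] at e
      simpa using (Set.Infinite.natEmbedding _ i n).2.2 r
        (by simpa using isUnit_one_sub_of_norm_lt_one e)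
  refine (((k _ h.bl hq.bl (fun a b x _ => by simp) fun a b _ => rfl).union
    (k _ h.br hq.br (fun a b x c => by simp [mul_assoc, c.eq]) fun a b c => c.eq.symm)).insert
      0).subset fun l hl => by_contra fun n => hl ?_
  simp only [Set.mem_insert_iff, Set.mem_union, mem_ofPred_eq, not_or, not_and, not_forall,
    not_not, LinearMap.mulLeft_apply, LinearMap.mulRight_apply, map_mul, map_sub,
    AlgHom.commutes] at n
  obtain ⟨a, ha⟩ := n.2.1 n.1
  obtain ⟨b, hb⟩ := n.2.2 n.1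
  exact isUnit_iff_exists_and_exists.2 ⟨⟨_, by rw [← mul_assoc]; exact ha.mul_val_inv⟩,
    ⟨_, by rw [mul_assoc]; exact hb.val_inv_mul⟩⟩

lemma ri (h : Tw p π τ) {y : R} (hy : ∀ m, (spectrum ℂ (π m y)).Finite) : ∃ e : R, e * e = e ∧
    (∀ r, Commute r y → Commute r e) ∧ IsUnit (y * (1 - e) + e) ∧ ∀ m, QN (π m (y * e)) := by
  choose e e1 e2 e3 e4 using fun m => riesz (hy m)
  obtain ⟨r, hr⟩ := h.am e fun m => by
    have a1 : τ m (e (m + 1)) * τ m (e (m + 1)) = τ m (e (m + 1)) := by rw [← map_mul, e1]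
    have a2 : Commute (π m y) (τ m (e (m + 1))) := h.cp m y ▸ (e2 (m + 1) _ (.refl _)).map _
    have a3 := e2 m _ a2.symm
    have a4 := uniq a1 (e1 m) a3 a2 (e2 m _ (.refl _)) (e3 m) fun ε ε0 =>
      (e4 (m + 1) ε ε0).mono fun k hk => by
        rw [← h.cp m, ← map_mul, ← map_pow]; exact (h.le _ _).trans hk
    have a5 := uniq (e1 m) a1 a3.symm (e2 m _ (.refl _)) a2
      (by simpa [h.cp] using (e3 (m + 1)).map (τ m)) (e4 m)
    rw [mul_one_sub, sub_eq_zero] at a4 a5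
    rw [a4, a3.eq, ← a5]
  exact ⟨r, h.ext fun m => by rw [map_mul, hr, e1], fun a c => h.ext fun m => by
    rw [map_mul, map_mul, hr, (e2 m _ (c.map _)).eq], h.unit fun m => by simpa [hr] using e3 m,
    fun m => by simpa [hr] using e4 m⟩

lemma key (h : Tw p π τ) (hq : Fa q) {x : R} (hx : x ∈ Sp p q) {l : ℂ} (l0 : l ≠ 0) :
    ∃ e : R, e * e = e ∧ (∀ r, Commute r x → Commute r e) ∧
      IsUnit ((algebraMap ℂ R l - x) * (1 - e) + e) ∧
      (∀ m, QN (π m ((algebraMap ℂ R l - x) * e))) ∧ ∃ w, x * w = e := by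
  obtain ⟨e, e1, e2, e3, e4⟩ := h.ri (y := algebraMap ℂ R l - x) fun m => by
    rw [map_sub, AlgHom.commutes, ← spectrum.singleton_sub_eq]
    exact (finite_singleton _).sub (h.fin hq hx m)
  have c : ∀ r, Commute r x → Commute r e := fun r c =>
    e2 r ((Algebra.commute_algebraMap_right _ _).sub_right c)
  have u : IsUnit (algebraMap ℂ R l - (algebraMap ℂ R l - x) * e) := h.unit fun m => by
    rw [map_sub, AlgHom.commutes]
    exact QN.uadd ((IsUnit.mk0 l l0).map _) (e4 m) (Algebra.commute_algebraMap_right _ _)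
  refine ⟨e, e1, c, e3, e4, e * ↑u.unit⁻¹, ?_⟩
  rw [← mul_assoc, Units.mul_inv_eq_iff_eq_mul, IsUnit.unit_spec, mul_sub, ← mul_assoc,
    ← (e2 _ (.refl _)).eq, mul_assoc, e1, sub_mul, Algebra.commutes]
  abel

end Tw

end Pool.Agent.H.MP_74fee8_an
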