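import Pool.Agent.H.MP_74fee8_an.C

namespace Pool.Agent.H.MP_74fee8_an

open Set Filter Topology Finset

variable {R : Type} [Ring R] [Algebra ℂ R] {p q : ℕ → Seminorm ℂ R}

def Le (g f : R) : Prop := f * g = g ∧ g * f = g

omit [Algebra ℂ R] in
lemma Le.trans {a b c : R} (h : Le a b) (k : Le b c) : Le a c :=
  ⟨by rw [← h.1, ← mul_assoc, k.1], by rw [← h.2, mul_assoc, k.2]⟩

omit [Algebra ℂ R] in
lemma Le.chain {e : ℕ → R} (h0 : ∀ n, e n * e n = e n) (h : ∀ n, Le (e (n + 1)) (e n)) {i n : ℕ}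
    (l : i ≤ n) : Le (e n) (e i) := by
  induction n, l using Nat.le_induction with
  | base => exact ⟨h0 _, h0 _⟩
  | succ n _ ih => exact (h n).trans ih

lemma wf (hp : Fa p) (hq : Fa q) (k : ℕ) : WellFounded fun g f : R =>
    f * f = f ∧ f ∈ Sp p q ∧ Le g f ∧ p k (f - g) ≠ 0 := by
  refine wellFounded_iff_isEmpty_descending_chain.2 ⟨fun ⟨e, he⟩ => ?_⟩
  obtain ⟨n, hn⟩ := stab hp.toFs hq.toFs k (fun n => LinearMap.mulLeft ℂ (e n))
    (fun _ n => LinearMap.mulLeft ℂ (e n)) (fun i n l x => by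
      simp [← mul_assoc, (Le.chain (fun n => (he n).1) (fun n => (he n).2.2.1) l).1])
    (fun _ => hp.bl _) (fun _ => hq.bl _) (fun _ _ => hq.bl _)
  refine (he n).2.2.2 (le_antisymm (le_of_forall_pos_le_add fun ε ε0 => ?_) (apply_nonneg _ _))
  have c := apply_nonneg (p k) (1 - e (n + 1))
  obtain ⟨s, -, hs⟩ := hn _ (he n).2.1 (ε / (p k (1 - e (n + 1)) + 1)) (by positivity)
  have := hp.mul k (1 - e (n + 1)) (e n * e n - e (n + 1) * s)
  rw [mul_sub, ← mul_assoc _ _ s, sub_mul, sub_mul, (he (n + 1)).1, (he n).1, (he n).2.2.1.2,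
    one_mul, one_mul, sub_self, zero_mul, sub_zero] at this
  rw [lt_div_iff₀ (by positivity), LinearMap.mulLeft_apply, LinearMap.mulLeft_apply,
    (he n).1] at hs
  nlinarith [apply_nonneg (p k) (e n - e (n + 1) * s)]

variable {L : ℕ → Type} [∀ m, NormedRing (L m)] [∀ m, NormedAlgebra ℂ (L m)]
  [∀ m, CompleteSpace (L m)] {π : ∀ m, R →ₐ[ℂ] L m} {τ : ∀ m, L (m + 1) →+* L m}

namespace Tw

omit [∀ m, CompleteSpace (L m)] in
lemma mini (h : Tw p π τ) (hq : Fa q) {e : R} (he : e * e = e) (hs : e ∈ Sp p q) (e0 : e ≠ 0) :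
    ∃ f ∈ Sp p q, f ≠ 0 ∧ f * f = f ∧ ∀ g, g * g = g → Le g f → g = 0 ∨ g = f := by
  obtain ⟨m, hm⟩ := not_forall.1 (mt (h.sep e) e0)
  let I := {g : R // g * g = g ∧ g ∈ Sp p q ∧ p m g ≠ 0}
  have : ∀ k (e : I), ∃ f : I, Le f.1 e.1 ∧ ∀ g : I, Le g.1 f.1 → π k f.1 = π k g.1 := by
    intro k e
    obtain ⟨f, ⟨f1, f2⟩, f3⟩ := (wf h.toFa hq k).has_min
      {g | (g * g = g ∧ g ∈ Sp p q ∧ p m g ≠ 0) ∧ Le g e.1} ⟨e, e.2, e.2.1, e.2.1⟩
    exact ⟨⟨f, f1⟩, f2, fun g l => h.eq.2 (by_contra fun n =>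
      f3 g ⟨g.2, l.trans f2⟩ ⟨f1.1, f1.2.1, l, n⟩)⟩
  choose F F1 F2 using this
  let a : ℕ → I := fun n => Nat.rec (F 0 ⟨e, he, hs, hm⟩) (fun j y => F (j + 1) y) n
  have a1 : ∀ {i n}, i ≤ n → Le (a n).1 (a i).1 := fun l =>
    Le.chain (fun n => (a n).2.1) (fun n => F1 _ _) l
  have a2 : ∀ k (g : I), Le g.1 (a k).1 → π k (a k).1 = π k g.1 := fun k => by
    cases k <;> exact F2 _ _
  obtain ⟨f, hf⟩ := h.am (fun k => π k (a k).1) fun k => by
    rw [h.cp, ← a2 k _ (a1 k.le_succ)]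
  have a3 : ∀ k, Le f (a k).1 := fun k =>
    ⟨h.ext fun j => by rw [map_mul, hf, a2 j _ (a1 (le_add_self : j ≤ k + j)), ← map_mul,
      (a1 le_self_add).1], h.ext fun j => by
      rw [map_mul, hf, a2 j _ (a1 (le_add_self : j ≤ k + j)), ← map_mul, (a1 le_self_add).2]⟩
  have sp : ∀ g, Le g f → g ∈ Sp p q := fun g l =>
    (l.trans (a3 0)).1 ▸ (h.br g).sp (hq.br g) (a 0).2.2.1
  have ff : f * f = f := h.ext fun j => by rw [map_mul, hf, ← map_mul, (a j).2.1]
  have f0 : p m f ≠ 0 := by rw [← h.nm, hf, h.nm]; exact (a m).2.2.2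
  have a4 : ∀ g, g * g = g → Le g f → p m g ≠ 0 → g = f := fun g g1 g2 g3 => h.ext fun k => by
    rw [hf, a2 k ⟨g, g1, sp g g2, g3⟩ (g2.trans (a3 k))]
  refine ⟨f, sp f ⟨ff, ff⟩, fun z => f0 (by simp [z]), ff, fun g g1 g2 => ?_⟩
  by_cases c : p m g = 0
  · refine .inl (sub_eq_self.1 (a4 (f - g) (by simp [mul_sub, sub_mul, ff, g1, g2.1, g2.2])
      ⟨by simp [mul_sub, ff, g2.1], by simp [sub_mul, ff, g2.2]⟩ fun z => f0 ?_))
    have := map_add_le_add (p m) (f - g) g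
    rw [sub_add_cancel, z, c, add_zero] at this
    exact le_antisymm this (apply_nonneg _ _)
  · exact .inr (a4 g g1 g2 c)

theorem main (h : Tw p π τ) (hq : Fa q) (ss : ∀ a : R, (∀ b, IsUnit (1 - a * b)) → a = 0)
    {s : R} (hs : s ∈ Sp p q) : s = 0 := by
  by_contra s0
  obtain ⟨b, hb⟩ := not_forall.1 (mt (ss s) s0)
  have x1 : s * b ∈ Sp p q := (h.br b).sp (hq.br b) hs
  obtain ⟨e, e1, -, e3, -, w, hw⟩ := h.key hq x1 one_ne_zero
  obtain ⟨f, fs, f0, ff, fm⟩ := h.mini hq e1 (hw ▸ (h.br w).sp (hq.br w) x1)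
    fun z => hb (by simpa [z] using e3)
  have M : ∀ x, Le x f → ∀ l : ℂ, l ≠ 0 → IsUnit (algebraMap ℂ R l - x) ∨
      (∀ m, QN (π m (l • f - x))) ∧ ∃ w, x * w = f := fun x hx l l0 => by
    obtain ⟨e, e1, e2, e3, e4, w, hw⟩ := h.key hq (x := x) (hx.1 ▸ (h.br x).sp (hq.br x) fs) l0
    have : f * e = e := by rw [← hw, ← mul_assoc, hx.1]
    obtain rfl | rfl := fm e e1 ⟨this, by rw [← (e2 f (hx.1.trans hx.2.symm)).eq, this]⟩
    · exact .inl (by simpa using e3)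
    · exact .inr ⟨by simpa [sub_mul, hx.2, Algebra.smul_def] using e4, w, hw⟩
  have Z : ∀ y, Le y f → (∀ m, QN (π m y)) → y = 0 := fun y hy qy => ss y fun b => by
    obtain c | ⟨-, c, hc⟩ := M (y * b * f) ⟨by rw [← mul_assoc, ← mul_assoc, hy.1],
      by rw [mul_assoc, ff]⟩ 1 one_ne_zero
    · have := (spectrum.unit_mem_mul_comm (R := ℂ) (a := y * b) (b := f) (r := 1)).not.1
        (by simpa [spectrum.mem_iff] using c)
      simpa [spectrum.mem_iff, ← mul_assoc, hy.1] using this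
    · have P : ∀ k, y ^ (k + 1) * (b * f * c) ^ (k + 1) = f := fun k => by
        induction k with
        | zero => simpa [mul_assoc] using hc
        | succ k ih =>
          rw [pow_succ y (k + 1), pow_succ' _ (k + 1), mul_assoc, ← mul_assoc y,
            show y * (b * f * c) = f by simpa [mul_assoc] using hc, ← mul_assoc, pow_succ y k,
            mul_assoc _ y, hy.2, ← pow_succ, ih]
      exact absurd (h.ext fun m => by
        rw [map_zero]
        refine (qy m).zero (w := π m (b * f * c)) fun k => ?_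
        rw [← map_pow, ← map_pow, ← map_mul, ← map_mul]
        cases k with
        | zero => simp
        | succ k => rw [P, ff]) f0
  have F : ∀ a, ∃ l : ℂ, f * a * f = l • f := fun a => by
    have hx : Le (f * a * f) f := ⟨by rw [← mul_assoc, ← mul_assoc, ff], by rw [mul_assoc, ff]⟩
    by_cases c : ∀ l : ℂ, l ≠ 0 → IsUnit (algebraMap ℂ R l - f * a * f)
    · exact ⟨0, by
        rw [zero_smul]
        exact Z _ hx fun m => .of_spec fun l hl => by_contra fun n => hl (by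
          simpa only [map_sub, AlgHom.commutes, spectrum.mem_resolventSet_iff] using
            (c l n).map (π m))⟩
    · push Not at c
      obtain ⟨l, l0, c⟩ := c
      exact ⟨l, (sub_eq_zero.1 (Z _ ⟨by rw [mul_sub, hx.1, mul_smul_comm, ff],
        by rw [sub_mul, hx.2, smul_mul_assoc, ff]⟩ ((M _ hx l l0).resolve_left c).1)).symm⟩
  obtain ⟨i, hi⟩ := not_forall.1 (mt (h.sep f) f0)
  obtain ⟨j, hj⟩ := not_forall.1 (mt (hq.sep f) f0)
  have p0 : 0 < p (i + j) f :=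
    ((apply_nonneg _ _).lt_of_ne' hi).trans_le (h.mono le_self_add _)
  have q0 : 0 < q (i + j) f :=
    ((apply_nonneg _ _).lt_of_ne' hj).trans_le (hq.mono le_add_self _)
  obtain ⟨a, a1, a2⟩ := fs (i + j) (1 / (p (i + j) f + q (i + j) f)) (by positivity)
  obtain ⟨l, hl⟩ := F a
  have k : ∀ {p : ℕ → Seminorm ℂ R}, Fa p → ∀ {m a} {l : ℂ}, 0 < p m f → f * a * f = l • f →
      ‖l‖ ≤ p m f * p m a := fun hp m a l p0 hl => by
    have := (hp.mul m (f * a) f).trans (mul_le_mul_of_nonneg_right (hp.mul m f a) p0.le)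
    rwa [hl, map_smul_eq_mul, mul_le_mul_iff_left₀ p0] at this
  have b1 := k hq q0 hl
  have b2 := k h.toFa (a := a - f) (l := l - 1) p0 (by
    rw [mul_sub, sub_mul, hl, ff, ff, sub_smul, one_smul])
  have b3 := norm_sub_le l (l - 1)
  rw [lt_div_iff₀ (by positivity)] at a1 a2
  rw [sub_sub_cancel, norm_one] at b3
  have := mul_lt_mul_of_pos_left a1 q0
  have := mul_lt_mul_of_pos_left a2 p0
  nlinarith

end Tw

end Pool.Agent.H.MP_74fee8_an
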