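import Pool.Agent.H.MP_74fee8_an.D

namespace Pool.Agent.H.MP_74fee8_an

open Set Filter Topology Finset UniformSpace

section

variable {R : Type} [Ring R] [Algebra ℂ R] {p q : ℕ → Seminorm ℂ R}

def Lv (_ : Fa p) (_ : ℕ) : Type := R

variable (hp : Fa p) (m : ℕ)

instance : Ring (Lv hp m) := inferInstanceAs (Ring R)

instance : Algebra ℂ (Lv hp m) := inferInstanceAs (Algebra ℂ R)

noncomputable instance : SeminormedRing (Lv hp m) where
  toRing := inferInstance
  norm := p m
  toPseudoMetricSpace := (p m).toAddGroupSeminorm.toSeminormedAddCommGroup.toPseudoMetricSpace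
  dist_eq := (p m).toAddGroupSeminorm.toSeminormedAddCommGroup.dist_eq
  norm_mul_le := hp.mul m

noncomputable instance : NormedAlgebra ℂ (Lv hp m) where
  norm_smul_le c x := (map_smul_eq_mul (p m) c x).le

noncomputable instance : NormedAlgebra ℂ (Completion (Lv hp m)) where
  norm_smul_le := norm_smul_le

def dn : Lv hp (m + 1) →+* Lv hp m := RingHom.id R

lemma dnc : Continuous (dn hp m) :=
  AddMonoidHomClass.continuous_of_bound (dn hp m) 1 fun x => by
    rw [one_mul]; exact hp.mono m.le_succ x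

noncomputable def pr : R →ₐ[ℂ] Completion (Lv hp m) where
  __ : Lv hp m →+* Completion (Lv hp m) := Completion.coeRingHom
  commutes' _ := rfl

lemma tw : Tw p (pr hp) fun m => Completion.mapRingHom _ (dnc hp m) where
  toFa := hp
  nm m x := Completion.norm_coe (E := Lv hp m) x
  dn m := Completion.denseRange_coe (α := Lv hp m)
  cp m x := Completion.mapRingHom_coe (dnc hp m) x
  le m y := by
    induction y using Completion.induction_on with
    | hp => exact isClosed_le (Completion.continuous_map.norm) continuous_norm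
    | ih x =>
      rw [Completion.mapRingHom_coe, Completion.norm_coe, Completion.norm_coe]
      exact hp.mono m.le_succ x

theorem bnd (hp : Fa p) (hq : Fa q) (ss : ∀ a : R, (∀ b, IsUnit (1 - a * b)) → a = 0) (m : ℕ) :
    ∃ k C, ∀ a, p m a ≤ C * q k a := by
  obtain ⟨k, C, -, h⟩ := star1 hp.toFs hq.toFs m
  refine ⟨k, C, fun a => ge_of_tendsto (f := fun η => C * (q k a + η)) (x := 𝓝[>] 0)
    (tendsto_nhdsWithin_of_tendsto_nhds (Continuous.tendsto' (by fun_prop) _ _ (by simp)))
    (eventually_mem_nhdsWithin.mono fun η hη => ?_)⟩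
  obtain ⟨s, h1, h2⟩ := h a η hη
  rwa [(tw hp).main hq ss h1, sub_zero] at h2

end

variable {A : Type} [NonUnitalRing A] [Module ℂ A] [IsScalarTower ℂ A A] [SMulCommClass ℂ A A]

noncomputable def U (p : ℕ → Seminorm ℂ A) (m : ℕ) : Seminorm ℂ (Unitization ℂ A) :=
  (normSeminorm ℂ ℂ).comp (Unitization.fstHom ℂ A).toLinearMap +
    ((range (m + 1)).sup p).comp (Unitization.sndHom ℂ ℂ A)

lemma U_apply (p : ℕ → Seminorm ℂ A) (m : ℕ) (x : Unitization ℂ A) :
    U p m x = ‖x.fst‖ + (range (m + 1)).sup p x.snd := rfl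

structure Fr (p : ℕ → Seminorm ℂ A) : Prop where
  sep : ∀ x, (∀ m, p m x = 0) → x = 0
  cpl : ∀ u : ℕ → A, (∀ m, ∀ ε > 0, ∃ N, ∀ i ≥ N, ∀ j ≥ N, p m (u i - u j) < ε) →
    ∃ f, ∀ m, ∀ ε > 0, ∀ᶠ n in atTop, p m (u n - f) < ε
  mul : ∀ m x y, p m (x * y) ≤ p m x * p m y

lemma Fr.fa {p : ℕ → Seminorm ℂ A} (h : Fr p) : Fa (U p) := by
  have le : ∀ m x, p m x ≤ (range (m + 1)).sup p x := fun m x =>
    Seminorm.le_finset_sup_apply (self_mem_range_succ m)
  have f1 : ∀ x y : Unitization ℂ A, (x - y).fst = x.fst - y.fst := map_sub (Unitization.fstHom ℂ A)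
  have f2 : ∀ x y : Unitization ℂ A, (x - y).snd = x.snd - y.snd :=
    map_sub (Unitization.sndHom ℂ ℂ A)
  refine ⟨⟨fun i j l x => ?_, fun x hx => ?_, fun u hu => ?_⟩, fun m x y => ?_⟩
  · exact add_le_add le_rfl (Finset.sup_mono (f := p) (range_mono (by omega)) x.snd)
  · ext
    · exact norm_le_zero_iff.1 ((le_add_of_nonneg_right (apply_nonneg _ _)).trans (hx 0).le)
    · exact h.sep _ fun m => le_antisymm ((le m _).trans
        ((le_add_of_nonneg_left (norm_nonneg x.fst)).trans (hx m).le)) (apply_nonneg _ _)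
  · obtain ⟨f, hf⟩ := h.cpl (fun n => (u n).snd) fun m ε ε0 => (hu m ε ε0).imp
      fun N hN i hi j hj => by
        rw [← f2]
        exact ((le m _).trans (le_add_of_nonneg_left (norm_nonneg (u i - u j).fst))).trans_lt
          (hN i hi j hj)
    obtain ⟨z, hz⟩ := cauchySeq_tendsto_of_complete (u := fun n => (u n).fst)
      (Metric.cauchySeq_iff.2 fun ε ε0 => (hu 0 ε ε0).imp fun N hN i hi j hj => by
        rw [dist_eq_norm, ← f1]
        exact (le_add_of_nonneg_right (apply_nonneg _ _)).trans_lt (hN i hi j hj))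
    refine ⟨⟨z, f⟩, fun m => ?_⟩
    simp only [U_apply, f1, f2]
    rw [← add_zero (0 : ℝ)]
    refine (tendsto_iff_norm_sub_tendsto_zero.1 hz).add (tendsto_order.2
      ⟨fun a a0 => .of_forall fun _ => a0.trans_le (apply_nonneg _ _), fun ε ε0 => ?_⟩)
    exact (((range (m + 1)).eventually_all).2 fun i _ => hf i ε ε0).mono fun _ =>
      Seminorm.finset_sup_apply_lt ε0
  · simp only [U_apply, Unitization.fst_mul, Unitization.snd_mul, norm_mul]
    set P := (range (m + 1)).sup p
    have : P (x.snd * y.snd) ≤ P x.snd * P y.snd :=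
      Seminorm.finset_sup_apply_le (by positivity) fun i hi => (h.mul i _ _).trans
        (mul_le_mul (Seminorm.le_finset_sup_apply hi) (Seminorm.le_finset_sup_apply hi)
          (apply_nonneg _ _) (apply_nonneg _ _))
    have a := map_add_le_add P (x.fst • y.snd + y.fst • x.snd) (x.snd * y.snd)
    have b := map_add_le_add P (x.fst • y.snd) (y.fst • x.snd)
    rw [map_smul_eq_mul, map_smul_eq_mul] at b
    linarith

omit [IsScalarTower ℂ A A] [SMulCommClass ℂ A A] in
lemma Fr.of {p : ℕ → Seminorm ℂ A} [UniformSpace A] [IsUniformAddGroup A] [CompleteSpace A]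
    [T2Space A] (w : WithSeminorms p) (h : ∀ m x y, p m (x * y) ≤ p m x * p m y) : Fr p := by
  refine ⟨fun x hx => by_contra fun n => (w.separating_of_T1 x n).elim fun i hi => hi (hx i),
    fun u hu => ?_, h⟩
  obtain ⟨f, hf⟩ := cauchySeq_tendsto_of_complete (u := u)
    ((IsUniformAddGroup.cauchy_iff_tendsto _).2 ⟨inferInstance, (w.tendsto_nhds _ _).2
      fun m ε ε0 => by
        obtain ⟨N, hN⟩ := hu m ε ε0
        rw [prod_map_map_eq, eventually_map, prod_atTop_atTop_eq, eventually_atTop]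
        exact ⟨(N, N), fun b hb => by simpa using hN _ hb.1 _ hb.2⟩⟩)
  exact ⟨f, (w.tendsto_nhds _ _).1 hf⟩

lemma ssU (h : ∀ a : A, (∀ b : A, ∃ c : A, a * b + c = (a * b) * c ∧ a * b + c = c * (a * b)) →
    a = 0) (x : Unitization ℂ A) (hx : ∀ b, IsUnit (1 - x * b)) : x = 0 := by
  have x0 : x.fst = 0 := by_contra fun n => by
    have := (hx (.inl x.fst⁻¹)).map (Unitization.fstHom ℂ A)
    rw [map_sub] at this
    simp [n] at this
  refine Unitization.ext x0 (h _ fun b => ?_)
  obtain ⟨v, h1, h2⟩ := isUnit_iff_exists.1 (hx b)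
  have a1 := congrArg (Unitization.fstHom ℂ A) h1
  have a2 := congrArg (Unitization.sndHom ℂ ℂ A) h1
  have a3 := congrArg (Unitization.sndHom ℂ ℂ A) h2
  simp [sub_eq_add_neg, x0] at a1 a2 a3
  simp only [a1, one_smul] at a2 a3
  refine ⟨-v.snd, ?_, ?_⟩
  · rw [mul_neg, ← sub_eq_zero, ← neg_eq_zero, ← a2]; abel
  · rw [neg_mul, ← sub_eq_zero, ← neg_eq_zero, ← a3]; abel

end Pool.Agent.H.MP_74fee8_an
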